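import Mathlib
import Pool.Agent.Run7.h795.RV.ThinSet
import Pool.Agent.Run7.h795.RV.Formulas
import Pool.Agent.Run7.h823.WF.Ex

/-!
# Existential formulas which imply the pole relation fail at almost all members of sparse families of residues, for
# instance at the first `m ^ ε` terms of linear recurrences modulo `m`

Let `K` be a number field and let `Q` be a rich set of rational primes, for example the primes `p = 1 mod 4`. The relation
`R_K(a, b)` of the problem holds for all rational integers `a` and all `b ∈ K`. Let `Φ` be an admissible existential formula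
which implies the pole relation: if `Φ(a, b)` holds, so does the pole relation, for all `a ∈ K`. Here it is shown that
`Φ(u, b)` fails for almost all members `u` of very sparse sets of integers:

for all `β`, `ε > 0` there is `q₀` such that for all `q ≥ q₀` and all finite families `y_i`, `i ∈ t`, of residues modulo `q` with
Fourier coefficients at most `q ^ (-β) |t|` (`Flat`) and all integers `c₀` the formula `Φ(u, b)` fails for all but `ε |t|` of the
integers `u = c₀ + y_i` (least residues). More generally, every thin subset of `K` contains at most `ε |t|` of them.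

Examples, with `β = β(ε, …) > 0`:

* the terms `u_n`, `n < N`, of a linear recurrence modulo a prime `m`, as soon as `N ≥ m ^ ε` and the roots and their quotients
  have orders `≥ m ^ ε`;
* the residues of `x b ^ n`, `n < N`, `N ≥ m ^ ε`, for a fixed integer `b ≥ 2` and all `x ≠ 0`, modulo all but
  `C X ^ ε` of the primes `m ≤ X`.

In these examples only `m ^ ε` of the `m` integers of the interval occur. In the starting file `AlmostAllIntegers` the integers
are the terms of a sequence which is equidistributed modulo all integers.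

The formulas are those of the starting file `AlmostAllIntegers`: finite disjunctions of the formulas of the starting results
`CubicEquations`, `QuadraticFamilies`, `QuarticDoubleCovers`, `UnirationalFibres`, and of formulas
`∃ w_1 … w_c, β(a, b, w)`, where `β` is an arbitrary quantifier-free formula in the language of rings
with parameters in `K` (a Boolean combination of polynomial equations) and `c ≤ 1`, or `c` is arbitrary
and the witnesses `w_i` are algebraic over the field `K(a)`: they satisfy equations `G_i(a, w_i) = 0`.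
And `b` may have poles above `Q`. For `K = ℚ` the formulas may also be disjunctions with quadratic equations of rank at least
five as in the starting result `RankFive`.

Proof. Such formulas define thin sets (`Pool.Agent.N455.PR`). Families with small Fourier coefficients are well distributed
modulo all integers up to a power of `q` (the transfer of helper823, `Pool.Agent.Run7.h823.WF`; the Fourier coefficients of
short recurrences are estimated by the method of Bourgain, Glibichuk and Konyagin), and Turan's sieve with the primes modulo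
which a polynomial has no root gives Hilbert's irreducibility theorem along them.
-/

set_option autoImplicit false

namespace Pool.Agent.Results.MP_a59382_lc.AlmostAllResidues

open MvPolynomial
open Pool.Agent.TH766.HP Pool.Agent.TH783.CE
open Pool.Agent.Results.MP_a59382_lc.CubicEquations (PoleRel)
open Pool.Agent.Results.MP_a59382_lc.QuadraticFamilies (Union)
open Pool.Agent.Results.MP_a59382_lc.UnirationalFibres (Block)
open Pool.Agent.R565.QR (spec Solvable)

/-- The Fourier coefficients of the vectors of residues `y i`, `i ∈ s`, modulo `q` at the nonzero frequencies are at most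
`η` times the number of the vectors: `|∑ i ∈ s, e(h·y_i / q)| ≤ η |s|` for all vectors `h ≠ 0` modulo `q`. -/
def FlatFamily {τ ι : Type} [Fintype ι] (q : ℕ) [NeZero q] (η : ℝ) (s : Finset τ) (y : τ → ι → ZMod q) : Prop :=
  ∀ h : ι → ZMod q, h ≠ 0 → ‖∑ i ∈ s, (ZMod.stdAddChar (∑ j, h j * y i j) : ℂ)‖ ≤ η * s.card

/-- The property `P` of integers is rare: for all `ε > 0` and `q ≥ q₀(ε)` it holds for at most `ε |s|` of the members
`c₀ + y_i` (least residues `0 ≤ y_i < q`) of all finite families of residues modulo `q` with Fourier coefficients at most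
`q ^ (-β) |s|`. (The residues are written as vectors with one coordinate.) -/
def Rare (β : ℝ) (P : ℤ → Prop) : Prop :=
  ∀ ε : ℝ, 0 < ε → ∃ q₀ : ℕ, ∀ (τ : Type) (q : ℕ) [NeZero q], q₀ ≤ q → ∀ (s : Finset τ) (y : τ → Unit → ZMod q)
    (c₀ : ℤ), FlatFamily q ((q : ℝ) ^ (-β)) s y →
    ({i : τ | i ∈ s ∧ P (c₀ + ((y i ()).val : ℕ))}.ncard : ℝ) ≤ ε * s.card

/-- The data of a disjunction of existential formulas in `a` and `b`: `k` equations
`∃ z, f(a, b, z) = 0`, `h` equations `∃ w z, g(a, b, w, z) = 0`, `l` formulas which say that `a` is a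
value of `p / q` on a product of blocks `S` depending on `b`, and `u` formulas
`∃ w, B(F_1(a, b, w) = 0, …, F_s(a, b, w) = 0)` with a Boolean function `B`. -/
structure Formula (K : Type) [Field K] where
  /-- the number of the formulas of the first kind -/
  k : ℕ
  /-- the numbers of their quantifiers -/
  n : Fin k → ℕ
  /-- their polynomials -/
  f : ∀ i, MvPolynomial (Fin 2 ⊕ Fin (n i)) K
  /-- the number of the formulas of the second kind -/
  h : ℕ
  /-- the numbers of their quantifiers `z` -/
  m : Fin h → ℕ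
  /-- their polynomials -/
  g : ∀ i, MvPolynomial (Fin 3 ⊕ Fin (m i)) K
  /-- the number of the formulas of the third kind -/
  l : ℕ
  /-- the numbers of the blocks -/
  r : Fin l → ℕ
  /-- the dimensions of the blocks -/
  d : ∀ i, Fin (r i) → ℕ
  /-- the blocks -/
  S : ∀ i, K → ∀ j, Set (Fin (d i j + 1) → K)
  /-- the numerators -/
  p : ∀ i, K → MvPolynomial ((j : Fin (r i)) × Fin (d i j + 1)) K
  /-- the denominators -/
  q : ∀ i, K → MvPolynomial ((j : Fin (r i)) × Fin (d i j + 1)) K
  /-- the number of the formulas of the fourth kind -/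
  u : ℕ
  /-- the numbers of their quantifiers -/
  c : Fin u → ℕ
  /-- the numbers of their equations -/
  s : Fin u → ℕ
  /-- their polynomials -/
  F : ∀ i, Fin (s i) → MvPolynomial (Fin 2 ⊕ Fin (c i)) K
  /-- their Boolean functions -/
  B : ∀ i, (Fin (s i) → Prop) → Prop

section

variable {K : Type} [Field K]

/-- The quantifier-free part of the `i`-th formula of the fourth kind. -/
def Formula.Matrix (Φ : Formula K) (i : Fin Φ.u) (a b : K) (w : Fin (Φ.c i) → K) : Prop :=
  Φ.B i fun j => eval (Sum.elim ![a, b] w) (Φ.F i j) = 0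

/-- The formula holds for `a` and `b`. -/
def Formula.Holds (Φ : Formula K) (a b : K) : Prop :=
  Union Φ.f Φ.g Φ.S Φ.p Φ.q a b ∨ ∃ i, ∃ w : Fin (Φ.c i) → K, Φ.Matrix i a b w

/-- The polynomials `f` have degree at most three in `(a, z)` and the polynomials `g` have degree at
most two in `(a, z)`. -/
def Formula.SmallDegree (Φ : Formula K) : Prop :=
  (∀ i, ∀ e ∈ (Φ.f i).support, e (Sum.inl 0) + ∑ j, e (Sum.inr j) ≤ 3) ∧
    ∀ i, ∀ e ∈ (Φ.g i).support, e (Sum.inl 0) + ∑ j, e (Sum.inr j) ≤ 2

/-- For this `b` every formula of the fourth kind has at most one quantifier, or all its witnesses `w`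
are algebraic over the field `K(a)`: there are polynomials `G ≠ 0` in two variables with
`G(a, w_i) = 0`. -/
def Formula.AlgebraicWitnesses (Φ : Formula K) (b : K) : Prop :=
  ∀ i, Φ.c i ≤ 1 ∨ ∀ j : Fin (Φ.c i), ∃ G : Polynomial (Polynomial K), G ≠ 0 ∧
    ∀ (a : K) (w : Fin (Φ.c i) → K), Φ.Matrix i a b w → G.evalEval a (w j) = 0

/-- The degrees are small, the sets `S` are blocks for this `b` and the witnesses of the formulas of the
fourth kind are algebraic. -/
def Formula.AdmissibleAt (Φ : Formula K) (b : K) : Prop :=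
  Φ.SmallDegree ∧ (∀ i j, Block (Φ.S i b j)) ∧ Φ.AlgebraicWitnesses b

end

/-- For this `b` the formula implies the pole relation. -/
def Formula.SoundAt {K : Type} [Field K] [NumberField K] (Φ : Formula K) (Q : Set ℕ) (b : K) : Prop :=
  ∀ a : K, Φ.Holds a b → PoleRel K Q a b

/-- Quadratic equations `∃ z, (1, z)ᵀ A(a, b) (1, z) = 0` over `ℚ`, `A` symmetric, with a matrix of rank
at least five for this `b` and some `a`. -/
structure Forms where
  /-- the number of the equations -/
  s : ℕ
  /-- the numbers of their variables `z` -/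
  t : Fin s → ℕ
  /-- the matrices -/
  A : ∀ i, Matrix (Fin (t i + 1)) (Fin (t i + 1)) (MvPolynomial (Fin 2 ⊕ Fin 0) ℚ)

/-- One of the equations is solvable. -/
def Forms.Holds (Ψ : Forms) (a b : ℚ) : Prop := ∃ i, Solvable (Ψ.A i) a b

/-- The matrices are symmetric and have rank at least five for this `b` and some `a`. -/
def Forms.RankFiveAt (Ψ : Forms) (b : ℚ) : Prop :=
  ∀ i, (Ψ.A i).IsSymm ∧ ∃ a, 5 ≤ (spec (Ψ.A i) a b Fin.elim0).rank

lemma rare_of {β : ℝ} {P : ℤ → Prop} (h : Run7.h795.RV.Rare β (fun v : Unit → ℤ => P (v ()))) : Rare β P := by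
  intro ε hε
  obtain ⟨q₀, h0⟩ := h ε hε
  exact ⟨q₀, fun τ q _ hq s y c₀ hf => h0 τ q hq s y (fun _ => c₀) hf⟩

/-- **Formulas which imply the pole relation fail at almost all members of sparse families of residues.** (1) Thin sets of
number fields. (2) Formulas over number fields. (3) Formulas over the rational numbers. (4) The pole relation holds at all
integers. (5) The primes `1` modulo `4`. (6) Examples of families: short linear recurrences. (7) Examples of families: the
first powers of fixed integers, modulo all but `C X ^ ε` of the primes `m ≤ X`. -/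
theorem result :
    (∀ (β : ℝ), 0 < β → ∀ (K : Type) [Field K] [NumberField K] (D : Set K), Thin D → Rare β fun u => (u : K) ∈ D) ∧
    (∀ (β : ℝ), 0 < β → ∀ (K : Type) [Field K] [NumberField K] (Q : Set ℕ), Rich Q →
      ∀ (Φ : Formula K) (b : K), Φ.AdmissibleAt b → Φ.SoundAt Q b → Rare β fun u => Φ.Holds (u : K) b) ∧
    (∀ (β : ℝ), 0 < β → ∀ (Q : Set ℕ), Rich Q → ∀ (Φ : Formula ℚ) (Ψ : Forms) (b : ℚ),
      Φ.AdmissibleAt b → Ψ.RankFiveAt b → (∀ a : ℚ, (Φ.Holds a b ∨ Ψ.Holds a b) → PoleRel ℚ Q a b) →
      Rare β fun u => Φ.Holds (u : ℚ) b ∨ Ψ.Holds (u : ℚ) b) ∧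
    (∀ (K : Type) [Field K] [NumberField K] (Q : Set ℕ) (m : ℤ) (b : K), PoleRel K Q (m : K) b) ∧
    Rich {p | p % 4 = 1} ∧
    (∀ (k : ℕ) (ε : ℝ), 0 < ε → ∃ β : ℝ, 0 < β ∧ ∃ m₀ : ℕ, ∀ (m : ℕ) [Fact m.Prime], m₀ ≤ m →
      ∀ (ι : Type) [Fintype ι] (c : ι → Fin k → ZMod m) (g : Fin k → (ZMod m)ˣ) (N : ℕ), LinearIndependent (ZMod m) c →
      (∀ i, (m : ℝ) ^ ε ≤ orderOf (g i)) → (∀ i j, i ≠ j → (m : ℝ) ^ ε ≤ orderOf (g i / g j)) → (m : ℝ) ^ ε ≤ N →
      FlatFamily m ((m : ℝ) ^ (-β)) (Finset.range N) (fun n j => ∑ i, c j i * (g i : ZMod m) ^ n)) ∧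
    (∀ (ι : Type) [Fintype ι] (ε : ℝ), 0 < ε → ∃ β : ℝ, 0 < β ∧ ∀ b : ι → ℕ, (∀ j, 2 ≤ b j) → Function.Injective b →
      ∃ C : ℝ, ∀ X : ℕ, 1 ≤ X → ∀ Q : Finset ℕ,
      (∀ m ∈ Q, m ≤ X ∧ ∃ _ : Fact m.Prime, ¬ ∀ N : ℕ, (m : ℝ) ^ ε ≤ N → ∀ x : ι → ZMod m, (∀ j, x j ≠ 0) →
        FlatFamily m ((m : ℝ) ^ (-β)) (Finset.range N) (fun n j => x j * (b j : ZMod m) ^ n)) →
      (Q.card : ℝ) ≤ C * (X : ℝ) ^ ε) := by
  have key : ∀ (K : Type) [Field K] [NumberField K] (Q : Set ℕ), Rich Q →
      ∀ (Φ : Formula K) (b : K), Φ.AdmissibleAt b → Φ.SoundAt Q b → Thin {a | Φ.Holds a b} := by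
    intro K _ _ Q hQ Φ b hΦ hs
    exact Run7.h795.RV.Hit.thin_main hQ hΦ.1.1 hΦ.1.2 b hΦ.2.1 hΦ.2.2 hs
  refine ⟨fun β hβ K _ _ D hD => rare_of (Run7.h795.RV.Hit.thin_rare hβ K D hD), fun β hβ K _ _ Q hQ Φ b hΦ hs => ?_,
    fun β hβ Q hQ Φ Ψ b hΦ hΨ hs => ?_, fun K _ _ Q m b => Run7.h795.RV.Hit.poleRel_int Q m b, four,
    fun k ε hε => Pool.Agent.Run7.h823.WF.flat_rec' k hε, fun ι _ ε hε => Pool.Agent.Run7.h823.WF.flat_pow' ι hε⟩
  · exact rare_of (Run7.h795.RV.Hit.thin_rare hβ K _ (key K Q hQ Φ b hΦ hs))
  · have h1 := key ℚ Q hQ Φ b hΦ fun a ha => hs a (Or.inl ha)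
    have h2 : {a | Ψ.Holds a b}.Finite := by
      have : {a | Ψ.Holds a b} = ⋃ i, {a | Solvable (Ψ.A i) a b} := by
        ext a
        simp [Forms.Holds]
      rw [this]
      exact Set.finite_iUnion fun i => Run7.h795.RV.Hit.fin_rank5 hQ (hΨ i).1 b (hΨ i).2
        fun a ha => hs a (Or.inr ⟨i, ha⟩)
    exact rare_of (Run7.h795.RV.Hit.thin_rare hβ ℚ _ (h1.union (Thin.of_finite h2)))

end Pool.Agent.Results.MP_a59382_lc.AlmostAllResidues
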