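import Pool.Agent.Run7.h91.NU.Main

set_option autoImplicit false

/-!
# The pole relation has no existential or universal definition which is uniform in the number field

The question is whether for every number field `K` there is an existential formula which defines the
relation `R_K` in `K`. We show that such a formula must depend on `K` in a strong sense: for every
existential and every universal formula over a number field `k` there is a finite extension `L` of
`k` such that the formula does not define `R_K` in ANY number field `K` containing `L`. If `k` is a
subfield of the real numbers, there is a real `L` such that it does not define `R_K` in any real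
number field `K` containing `L`. For a polynomial equation `P(a, b, z) = 0` of degree at most `d` in the
unknowns `z` (and of any degree in `a`, `b`) the degree of `L` over `k` is at most `d`; so it does not
define `R_K` for all extensions `K` of `k` of degree at most `d`.

Proof. The set of the `a` for which an existential formula holds (with `b = 1`) is finite or cofinite
over the algebraic closure (Chevalley); over the real algebraic numbers it contains all large
elements or none (Tarski and Seidenberg). So it contains an `a` with a pole at `5`, and then a solution
`z` generates the field `L`, or it does not contain some natural number `a`. For one polynomial: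
`P(a, 1, z)` is constant in `z` for all `a`, or for all but finitely many `a` in `k` it has a zero in an
extension of degree at most `d`, on a line on which its leading form does not vanish.
-/

namespace Pool.Agent.Results.MP_a59382_lc.NoUniformDefinition

open NumberField IsDedekindDomain MvPolynomial

/-- The relation `R_K` of the problem. -/
def PoleRel (K : Type) [Field K] [NumberField K] (a b : K) : Prop :=
  ∀ v : HeightOneSpectrum (𝓞 K), (∃ p : ℕ, p.Prime ∧ p % 4 = 1 ∧ ((p : 𝓞 K) ∈ v.asIdeal)) →
    1 < v.valuation K a → 1 < v.valuation K b

section
variable {k : Type} [Field k] {m n : ℕ}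

/-- The existential formula `∃ z_1 ... z_n, ψ` over `k` holds in the extension `K` for `a`, `b`. Here `ψ`
is a Boolean combination of the equations `f_i(a, b, z) = 0`: a condition on the truth values of
these equations. -/
def Existential (f : Fin m → MvPolynomial (Fin 2 ⊕ Fin n) k) (ψ : (Fin m → Prop) → Prop)
    (K : Type) [Field K] [Algebra k K] (a b : K) : Prop :=
  ∃ z : Fin n → K, ψ fun i => aeval (Sum.elim ![a, b] z) (f i) = 0

/-- The universal formula `∀ z_1 ... z_n, ψ` holds in `K` for `a`, `b`. -/
def Universal (f : Fin m → MvPolynomial (Fin 2 ⊕ Fin n) k) (ψ : (Fin m → Prop) → Prop)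
    (K : Type) [Field K] [Algebra k K] (a b : K) : Prop :=
  ∀ z : Fin n → K, ψ fun i => aeval (Sum.elim ![a, b] z) (f i) = 0

end

/-- **Theorem.** Let `k` be a number field.
(1) For every `f_1, ..., f_m` and `ψ` there is a finite extension `L` of `k` such that neither the
existential nor the universal formula defines `R_K` in any number field `K` containing `L`.
(2) If `k` is embedded in the real numbers, there is a finite extension `L` of `k` in the real numbers
such that neither of the formulas defines `R_K` in any number field `K` containing `L` which has an
embedding over `k` in the real numbers.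
(3) For every polynomial `P(a, b, z)` over `k` of degree at most `d` in `z`, `d ≥ 1`, there is an extension
`L` of `k` of degree at most `d` such that the solvability of `P(a, b, z) = 0` does not define `R_K` in any
number field `K` containing `L`. -/
theorem result (k : Type) [Field k] [NumberField k] :
    (∀ (m n : ℕ) (f : Fin m → MvPolynomial (Fin 2 ⊕ Fin n) k) (ψ : (Fin m → Prop) → Prop),
      ∃ L : IntermediateField k (AlgebraicClosure k), FiniteDimensional k L ∧
        ∀ (K : Type) [Field K] [NumberField K] [Algebra k K], (L →ₐ[k] K) →
          ¬ (∀ a b : K, Existential f ψ K a b ↔ PoleRel K a b) ∧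
          ¬ (∀ a b : K, Universal f ψ K a b ↔ PoleRel K a b)) ∧
    (∀ [Algebra k ℝ] (m n : ℕ) (f : Fin m → MvPolynomial (Fin 2 ⊕ Fin n) k)
      (ψ : (Fin m → Prop) → Prop),
      ∃ L : IntermediateField k ℝ, FiniteDimensional k L ∧
        ∀ (K : Type) [Field K] [NumberField K] [Algebra k K], (L →ₐ[k] K) → (K →ₐ[k] ℝ) →
          ¬ (∀ a b : K, Existential f ψ K a b ↔ PoleRel K a b) ∧
          ¬ (∀ a b : K, Universal f ψ K a b ↔ PoleRel K a b)) ∧
    (∀ (n d : ℕ) (P : MvPolynomial (Fin 2 ⊕ Fin n) k), 1 ≤ d →
      (∀ s ∈ P.support, ∑ j, s (Sum.inr j) ≤ d) →
      ∃ (L : Type) (_ : Field L) (_ : Algebra k L), FiniteDimensional k L ∧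
        Module.finrank k L ≤ d ∧
        ∀ (K : Type) [Field K] [NumberField K] [Algebra k K], (L →ₐ[k] K) →
          ¬ (∀ a b : K, (∃ z : Fin n → K, aeval (Sum.elim ![a, b] z) P = 0) ↔ PoleRel K a b)) := by
  refine ⟨fun m n f ψ => ?_, fun m n f ψ => ?_, fun n d P hd1 hd => ?_⟩
  · obtain ⟨L, hL, h⟩ := Pool.Agent.Run7.h91.NU.assemble
      (Pool.Agent.Run7.h91.NU.dich_alg k) f ψ
    exact ⟨L, hL, fun K _ _ _ ι => h K ι (IsAlgClosed.lift)⟩
  · obtain ⟨L, hL, h⟩ := Pool.Agent.Run7.h91.NU.assemble
      (Pool.Agent.Run7.h91.NU.dich_real k) f ψ
    exact ⟨L, hL, fun K _ _ _ ι j => h K ι j⟩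
  · exact Pool.Agent.Run7.h91.NU.one_polynomial P d hd1 hd

end Pool.Agent.Results.MP_a59382_lc.NoUniformDefinition
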