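import Pool.Agent.Results.MP_a59382_lc.AlmostAllIntegers
import Pool.Agent.Run7.h316.DN.Frac

/-!
# Existential formulas which imply the pole relation fail at almost all primes and at almost all quotients of primes

Let `K` be a number field and `Q` a rich set of rational primes, for example the primes `p = 1 mod 4`. The relation
`R_K(a, b)` of the problem (`b` has a pole at every place above `Q` at which `a` has a pole) holds for all `b ∈ K` and all
`a = m / n` with integers `m, n` such that no prime of `Q` divides `n`. The starting result `AlmostAllIntegers` (helper455)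
shows that every admissible existential formula which implies the relation fails at almost all integers `a`, and at almost
all terms of every sequence of integers which is equidistributed modulo all integers.

Here the numbers `a = x_i` and `a = x_i / x_j` (`j ≠ i`) are considered for families `x w`, `w ∈ Ω`, of vectors of integers
along finite sets `S M ⊂ Ω`. `Usually`: for all `i` and `j` and

(1) for all number fields `K` and all thin subsets `D` of `K`,
(2) for all number fields `K`, all rich sets `Q`, all `b ∈ K` and all admissible formulas `Φ` such that `Φ(a, b)` implies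
the pole relation for all `a ∈ K`; for `K = ℚ` the formulas may also be disjunctions with quadratic equations of rank at
least five,

the proportion of the `w ∈ S M` such that `a` belongs to `D`, or such that `Φ(a, b)` holds, tends to zero, `M → ∞`.

**Theorem.** The property `Usually` is robust (`Pool.Agent.Run7.h316.EQ.Robust`):

(1) All dominated families have it: there are `C`, `A`, `D` such that for all squarefree `q` prime to `D` at most the
proportion `C (q / φ(q)) ^ A q ^ (-n) + o(1)` of the vectors is in a given class modulo `q`, where `n` is the number of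
the coordinates. (All equidistributed sequences are dominated, along arbitrary sets of times, and all their subfamilies of
positive lower density.)
(2) - (4) Metric sequences: `(⌊f_{i,l}(x_i)⌋)_i` for Koksma sequences `f_{i,0}, f_{i,1}, …`, `(⌊a_{i,l} x_i⌋)_i` for
arbitrary sequences of different integers (or of real numbers with a gap) and `(⌊ξ_i x_i ^ (k_l)⌋)_i`, for almost all
`x`.
(5) Random orbits of groups of integral matrices of determinant one which generate `SL(ℤ/q)` for all `q` prime to some
number.
(6) Generalised polynomials `(⌊∑_t a_{i,t} l ^ t⌋)_i` at the integers and at the primes `l` of `(M, 2M]`.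
(7) PRIME ARGUMENTS: the vectors of prime numbers `≤ M`. So a formula which implies the pole relation at the primes
`1 mod 4` fails at almost all prime numbers `a = p` and at almost all quotients `a = p / ℓ` of prime numbers `p, ℓ ≤ M`,
although the relation holds for all `p / ℓ` with `ℓ ≠ 1 mod 4` (and for all `p / ℓ` if `b` has a pole above `ℓ`).

Proof. The `a ∈ K` for which an admissible formula holds which implies the relation are a thin set
(`Pool.Agent.N455.PR.thin_main`, helper455; starting results `CubicEquations`, `QuadraticFamilies`,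
`QuarticDoubleCovers`, `UnirationalFibres`, `RankFive`). A thin subset of `K` induces a thin set of RATIONAL numbers
(the proof of helpers 716 and 455 for rational parameters), and by homogenisation the vectors `x` for which `x_i / x_j` is
in a thin subset of `ℚ` belong to finitely many hyperplanes or to a set of vectors at which a monic polynomial over
`ℤ[x]` without root has an integral root. **These sets are very null** (`Pool.Agent.Run7.h316.DN.hit_very`): for all `D`,
`η > 1` and `ε > 0` there is a squarefree number `q` prime to `D` with `q ≤ η φ(q)` such that at most the proportion `ε`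
of the classes modulo `q` contain elements of the set. The families above almost avoid them. There are only countably many
polynomials over `ℚ`. Metric sequences: `Pool.Agent.N24.KM` (helpers 24, 344, 617, 199, 764, 432, 286); random orbits:
`Pool.Agent.N24.RW` (helpers 24, 123, 195, 300, 543, 765); generalised polynomials: `Pool.Agent.N666.TM` (helper666);
`Pool.Agent.N918.EQ` (helper918); primes: the prime number theorem for arithmetic progressions (helper923).
-/

set_option autoImplicit false

namespace Pool.Agent.Results.MP_a59382_lc.PrimeArguments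

open Pool.Agent.TH766.HP Pool.Agent.TH783.CE
open Pool.Agent.Results.MP_a59382_lc.CubicEquations (PoleRel)
open Pool.Agent.Results.MP_a59382_lc.AlmostAllIntegers
open Pool.Agent.R565.QR (spec Solvable)
open Pool.Agent.Run7.h316.EQ (Robust)

/-- The proportion of the `w` in `S M` with the property `p` tends to zero. -/
def Few {Ω : Type} (S : ℕ → Finset Ω) (p : Ω → Prop) : Prop :=
  ∀ ε : ℝ, 0 < ε → ∃ M₀ : ℕ, ∀ M : ℕ, M₀ ≤ M →
    (({w : Ω | w ∈ S M ∧ p w}.ncard : ℕ) : ℝ) ≤ ε * (S M).card

/-- The denominator: `1`, or a coordinate `x_j`. -/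
def denominator {ι : Type} (x : ι → ℤ) (o : Option ι) : ℤ := o.elim 1 x

/-- The element `x_i` or `x_i / x_j` of `K`. -/
def quotient {ι : Type} (K : Type) [Field K] (x : ι → ℤ) (i : ι) (o : Option ι) : K :=
  (x i : K) / (denominator x o : K)

/-- For `a = x_i` and `a = x_i / x_j`: thin sets contain few `a`, and formulas which imply the pole relation hold for few
`a`. -/
def Usually {ι : Type} (Ω : Type) (S : ℕ → Finset Ω) (x : Ω → ι → ℤ) : Prop :=
  ∀ (i : ι) (o : Option ι), o ≠ some i →
    -- thin sets
    (∀ (K : Type) [Field K] [NumberField K] (D : Set K), Thin D →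
      Few S fun w => denominator (x w) o = 0 ∨ quotient K (x w) i o ∈ D) ∧
    -- formulas over number fields
    (∀ (K : Type) [Field K] [NumberField K] (Q : Set ℕ), Rich Q →
      ∀ (Φ : Formula K) (b : K), Φ.AdmissibleAt b → Φ.SoundAt Q b →
        Few S fun w => denominator (x w) o = 0 ∨ Φ.Holds (quotient K (x w) i o) b) ∧
    -- formulas over the rational numbers
    (∀ (Q : Set ℕ), Rich Q → ∀ (Φ : Formula ℚ) (Ψ : Forms) (b : ℚ),
      Φ.AdmissibleAt b → Ψ.RankFiveAt b →
      (∀ a : ℚ, (Φ.Holds a b ∨ Ψ.Holds a b) → PoleRel ℚ Q a b) →
        Few S fun w => denominator (x w) o = 0 ∨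
          Φ.Holds (quotient ℚ (x w) i o) b ∨ Ψ.Holds (quotient ℚ (x w) i o) b)

theorem quotient_eq {ι : Type} (K : Type) [Field K] [CharZero K] (x : ι → ℤ) (i : ι)
    (o : Option ι) :
    quotient K x i o = algebraMap ℚ K (Pool.Agent.Run7.h316.DN.arg x i o) := by
  unfold quotient Pool.Agent.Run7.h316.DN.arg
  rw [map_div₀, map_intCast, map_intCast]
  rfl

/-- the pole relation holds for fractions whose denominators are prime to `Q` -/
theorem poleRel_frac {K : Type} [Field K] [NumberField K] (Q : Set ℕ) (m n : ℤ)
    (hn : ∀ p : ℕ, p.Prime → p ∈ Q → ¬ (p : ℤ) ∣ n) (b : K) :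
    PoleRel K Q ((m : K) / (n : K)) b := by
  rintro v ⟨p, hp, hpQ, hpv⟩ hv
  exfalso
  have h1 : v.valuation K ((m : NumberField.RingOfIntegers K) : K) ≤ 1 :=
    v.valuation_le_one (K := K) (m : NumberField.RingOfIntegers K)
  have h2 : ((m : NumberField.RingOfIntegers K) : K) = (m : K) := by simp
  have h3 : ((n : NumberField.RingOfIntegers K) : K) = (n : K) := by simp
  have h4 : (n : NumberField.RingOfIntegers K) ∉ v.asIdeal := by
    intro h
    have hc : IsCoprime (p : ℤ) n := by
      rw [Int.isCoprime_iff_gcd_eq_one]
      have := (Nat.Prime.coprime_iff_not_dvd hp).2 fun hd => hn p hp hpQ (Int.natCast_dvd.2 hd)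
      exact this
    obtain ⟨u, w, huw⟩ := hc
    have h5 : (1 : NumberField.RingOfIntegers K) ∈ v.asIdeal := by
      have h6 : (1 : NumberField.RingOfIntegers K) =
          (u : NumberField.RingOfIntegers K) * (p : NumberField.RingOfIntegers K) +
            (w : NumberField.RingOfIntegers K) * (n : NumberField.RingOfIntegers K) := by
        have := congrArg (Int.cast : ℤ → NumberField.RingOfIntegers K) huw
        push_cast at this
        exact this.symm
      rw [h6]
      exact v.asIdeal.add_mem (v.asIdeal.mul_mem_left _ hpv) (v.asIdeal.mul_mem_left _ h)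
    exact v.isPrime.ne_top ((Ideal.eq_top_iff_one _).2 h5)
  have h5 : v.valuation K ((n : NumberField.RingOfIntegers K) : K) = 1 := by
    refine le_antisymm (v.valuation_le_one (K := K) _) (not_lt.1 fun h => h4 ?_)
    rw [v.valuation_lt_one_iff_mem] at h
    exact h
  rw [map_div₀, ← h2, ← h3, h5, div_one] at hv
  exact absurd hv (not_lt.2 h1)

theorem key (K : Type) [Field K] [NumberField K] (Q : Set ℕ) (hQ : Rich Q) (Φ : Formula K) (b : K)
    (hΦ : Φ.AdmissibleAt b) (hs : Φ.SoundAt Q b) : Thin {a | Φ.Holds a b} :=
  Pool.Agent.N455.PR.thin_main hQ hΦ.1.1 hΦ.1.2 b hΦ.2.1 hΦ.2.2 hs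

/-- **Formulas which imply the pole relation fail at almost all primes and at almost all quotients of primes**, and along
all dominated families, metric sequences, random orbits and generalised polynomials. -/
theorem result :
    (∀ (ι : Type) [Fintype ι] [DecidableEq ι] [Nonempty ι], Robust (Usually (ι := ι))) ∧
    -- the pole relation holds at all `m / n` for which no prime of `Q` divides `n`
    (∀ (K : Type) [Field K] [NumberField K] (Q : Set ℕ) (m n : ℤ),
      (∀ p : ℕ, p.Prime → p ∈ Q → ¬ (p : ℤ) ∣ n) → ∀ b : K, PoleRel K Q ((m : K) / (n : K)) b) ∧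
    -- the primes `1` modulo `4`
    Rich {p | p % 4 = 1} := by
  refine ⟨?_, fun K _ _ Q m n hn b => poleRel_frac Q m n hn b, four⟩
  intro ι _ _ _
  have hc : Countable ((ι × Option ι) × Polynomial (Polynomial ℚ)) :=
    Pool.Agent.Run7.h316.DN.badF_countable
  refine Pool.Agent.Run7.h316.EQ.robust_countable (Pool.Agent.Run7.h316.DN.BadF ι)
    (fun q => (Pool.Agent.Run7.h316.DN.very_badF q).strong) _ ?_
  intro Ω S x hR i o ho
  have thin : ∀ (K : Type) [Field K] [NumberField K] (D : Set K), Thin D →
      Few S fun w => denominator (x w) o = 0 ∨ quotient K (x w) i o ∈ D := by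
    intro K _ _ D hD ε hε
    obtain ⟨M₀, h⟩ := Pool.Agent.Run7.h316.DN.rare_thin hR i o ho K hD ε hε
    refine ⟨M₀, fun M hM => ?_⟩
    have h1 : {w : Ω | w ∈ S M ∧ (denominator (x w) o = 0 ∨ quotient K (x w) i o ∈ D)} =
        {w : Ω | w ∈ S M ∧ x w ∈ {y : ι → ℤ | Pool.Agent.Run7.h316.DN.den y o = 0 ∨
          algebraMap ℚ K (Pool.Agent.Run7.h316.DN.arg y i o) ∈ D}} := by
      ext w
      rw [Set.mem_ofPred_eq, Set.mem_ofPred_eq, Set.mem_ofPred_eq, quotient_eq]
      rfl
    rw [h1]
    exact h M hM
  refine ⟨thin, ?_, ?_⟩
  · intro K _ _ Q hQ Φ b hΦ hs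
    have h := thin K {a | Φ.Holds a b} (key K Q hQ Φ b hΦ hs)
    have e : (fun w => denominator (x w) o = 0 ∨ quotient K (x w) i o ∈ {a | Φ.Holds a b}) =
        fun w => denominator (x w) o = 0 ∨ Φ.Holds (quotient K (x w) i o) b := by
      funext w
      rw [Set.mem_ofPred_eq]
    rw [e] at h
    exact h
  · intro Q hQ Φ Ψ b hΦ hΨ hs
    have h1 := key ℚ Q hQ Φ b hΦ fun a ha => hs a (Or.inl ha)
    have h2 : {a | Ψ.Holds a b}.Finite := by
      have : {a | Ψ.Holds a b} = ⋃ i, {a | Solvable (Ψ.A i) a b} := by
        ext a
        simp [Forms.Holds]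
      rw [this]
      exact Set.finite_iUnion fun i => Pool.Agent.N455.PR.fin_rank5 hQ (hΨ i).1 b (hΨ i).2
        fun a ha => hs a (Or.inr ⟨i, ha⟩)
    have h := thin ℚ ({a | Φ.Holds a b} ∪ {a | Ψ.Holds a b}) (h1.union (Thin.of_finite h2))
    have e : (fun w => denominator (x w) o = 0 ∨
          quotient ℚ (x w) i o ∈ {a | Φ.Holds a b} ∪ {a | Ψ.Holds a b}) =
        fun w => denominator (x w) o = 0 ∨
          Φ.Holds (quotient ℚ (x w) i o) b ∨ Ψ.Holds (quotient ℚ (x w) i o) b := by
      funext w
      rw [Set.mem_union, Set.mem_ofPred_eq, Set.mem_ofPred_eq]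
    rw [e] at h
    exact h

end Pool.Agent.Results.MP_a59382_lc.PrimeArguments
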